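import Pool.Agent.DPF.StmtsR

/-!
# Squad DPF, row RCN: the rule constructor
-/

open scoped BigOperators

namespace Pool.Agent.DPF.H69

open Finset Pool.Agent.DPS Pool.Agent.DPF

theorem wt_nonneg {L : ℕ} {δ : ℕ → ℝ} (h1 : ∀ i, δ i ≤ δ (i + 1)) (h2 : ∀ i, δ i ≤ 1) (i : ℕ) :
    0 ≤ wt L δ i := by
  unfold wt
  split_ifs
  · linarith [h2 i]
  · linarith [h1 i]

theorem wt_part {L : ℕ} {δ : ℕ → ℝ} (h0 : δ 0 = 0) (d : ℕ) (hd : d + 1 ≤ L) :
    ∑ i ∈ range d, wt L δ i = δ d := by
  induction d with
  | zero => rw [sum_range_zero, h0]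
  | succ d ih =>
    rw [sum_range_succ, ih (by omega), wt, if_neg (by omega)]
    ring

theorem wt_total {L : ℕ} {δ : ℕ → ℝ} (h0 : δ 0 = 0) (hL : 1 ≤ L) :
    ∑ i ∈ range L, wt L δ i = 1 := by
  obtain ⟨m, rfl⟩ : ∃ m, L = m + 1 := ⟨L - 1, by omega⟩
  rw [sum_range_succ, wt_part h0 m le_rfl, wt, if_pos rfl]
  ring

theorem wt_sum {L : ℕ} {δ : ℕ → ℝ} (h0 : δ 0 = 0) (d : ℕ) (hd : d + 1 ≤ L) (c : ℕ → ℝ) (x y : ℝ)
    (hx : ∀ i, i < d → c i = x) (hy : ∀ i, d ≤ i → c i = y) :
    ∑ i ∈ range L, wt L δ i * c i = δ d * x + (1 - δ d) * y := by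
  have h1 : ∑ i ∈ range L, wt L δ i * c i =
      ∑ i ∈ range L, wt L δ i * y + ∑ i ∈ range d, wt L δ i * (x - y) := by
    have h2 : ∑ i ∈ range d, wt L δ i * (x - y) =
        ∑ i ∈ range L, if i < d then wt L δ i * (x - y) else 0 := by
      rw [← sum_filter]
      apply sum_congr _ fun _ _ => rfl
      ext i
      rw [mem_filter, mem_range, mem_range]
      omega
    rw [h2, ← sum_add_distrib]
    apply sum_congr rfl
    intro i _
    by_cases hi : i < d
    · rw [if_pos hi, hx i hi]
      ring
    · rw [if_neg hi, hy i (by omega)]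
      ring
  rw [h1, ← sum_mul, ← sum_mul, wt_part h0 d hd, wt_total h0 (by omega)]
  ring

theorem conf_sta (k t L i e e' : ℕ) (h : e + e' = L + t - 1) :
    sta k t L i e = 0 ∨ sta k t L i e' = 0 ∨ (2 ≤ sta k t L i e ∧ 2 ≤ sta k t L i e') := by
  unfold sta
  split_ifs <;> omega

theorem rcn : RCNStmt := by
  intro k t L ν δ ht hL hk hν hδ
  obtain ⟨h0, hmono, hle, hok⟩ := hδ
  have key : ∀ e, t ≤ e → e + 1 ≤ L → e < k → k ≤ e + ν →
      1 ≤ se ν k e * ∑ i : Fin L, wt L δ i.val *
        (if sta k t L i.val e = 0 then 0 else if sta k t L i.val e = 1 then 1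
          else ((L : ℝ) - e) / L) := by
    intro e hte heL hek hkν
    rw [Fin.sum_univ_eq_sum_range (fun i => wt L δ i *
      (if sta k t L i e = 0 then (0 : ℝ) else if sta k t L i e = 1 then 1
          else ((L : ℝ) - e) / L)) L]
    have hke : (0 : ℝ) < (k : ℝ) - e := by
      have : (e : ℝ) < k := by exact_mod_cast hek
      linarith
    have hL0 : (0 : ℝ) < L := by
      have : 0 < L := by omega
      exact_mod_cast this
    have hLe : (0 : ℝ) ≤ ((L : ℝ) - e) / L := by
      apply div_nonneg _ hL0.le
      have : (e : ℝ) ≤ L := by exact_mod_cast (by omega : e ≤ L)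
      linarith
    have hse : s0 k t L e ≤ se ν k e := by
      unfold s0 se
      apply div_le_div_of_nonneg_right _ hke.le
      have h1 : (((t + 1) * (k - t + 1) : ℕ) : ℝ) ≤ ((ν + L : ℕ) : ℝ) := by exact_mod_cast hν
      push_cast [Nat.cast_sub hk.le] at h1
      linarith
    by_cases hA : k + e ≤ L + t - 1
    · have h1 : ∑ i ∈ range L, wt L δ i *
          (if sta k t L i e = 0 then (0 : ℝ) else if sta k t L i e = 1 then 1
            else ((L : ℝ) - e) / L) = 1 := by
        refine Eq.trans ?_ (wt_total h0 (by omega : 1 ≤ L))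
        apply sum_congr rfl
        intro i _
        have h2 : sta k t L i e = 1 := by
          unfold sta
          rw [if_neg (by omega), if_pos hA]
        rw [h2, if_neg (by norm_num), if_pos rfl, mul_one]
      rw [h1, mul_one]
      unfold se
      rw [le_div_iff₀ hke, one_mul]
      have : (k : ℝ) ≤ e + ν := by exact_mod_cast hkν
      linarith
    · obtain ⟨hbig, hsmall⟩ := hok e hte heL hek (by omega)
      by_cases hB : L + t - 1 < 2 * e
      · have h1 := hbig hB
        have hd : dd t L e = 2 * e - (L + t - 1) := by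
          unfold dd
          omega
        rw [wt_sum h0 (dd t L e) (by omega) _ 1 (((L : ℝ) - e) / L)]
        · rw [mul_one]
          refine h1.trans (mul_le_mul_of_nonneg_right hse ?_)
          have h3 : 0 ≤ δ (dd t L e) := by
            have := wt_part (L := dd t L e + 1) h0 (dd t L e) le_rfl
            rw [← this]
            exact sum_nonneg fun i _ => wt_nonneg hmono hle i
          have h4 := hle (dd t L e)
          have h5 : 0 ≤ (1 - δ (dd t L e)) * (((L : ℝ) - e) / L) :=
            mul_nonneg (by linarith) hLe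
          linarith
        · intro i hi
          have h2 : sta k t L i e = 1 := by
            unfold sta
            rw [if_neg (by omega), if_neg hA, if_pos (by omega)]
          rw [h2, if_neg (by norm_num), if_pos rfl]
        · intro i hi
          have h2 : sta k t L i e = 2 := by
            unfold sta
            rw [if_neg (by omega), if_neg hA, if_neg (by omega), if_neg (by omega)]
          rw [h2, if_neg (by norm_num), if_neg (by norm_num)]
      · have h1 := hsmall (by omega)
        have hd : dd t L e = (L + t - 1) - 2 * e := by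
          unfold dd
          omega
        rw [wt_sum h0 (dd t L e) (by omega) _ 0 (((L : ℝ) - e) / L)]
        · rw [mul_zero, zero_add]
          refine h1.trans (mul_le_mul_of_nonneg_right hse ?_)
          have h4 := hle (dd t L e)
          exact mul_nonneg (by linarith) hLe
        · intro i hi
          have h2 : sta k t L i e = 0 := by
            unfold sta
            rw [if_neg (by omega), if_neg hA, if_neg (by omega), if_pos (by omega)]
          rw [h2, if_pos rfl]
        · intro i hi
          have h2 : sta k t L i e = 2 := by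
            unfold sta
            rw [if_neg (by omega), if_neg hA, if_neg (by omega), if_neg (by omega)]
          rw [h2, if_neg (by norm_num), if_neg (by norm_num)]
  refine ⟨⟨L, fun i => wt L δ i.val, fun i => sta k t L i.val, fun i => wt_nonneg hmono hle _, ?_,
    fun i e e' h => conf_sta k t L i.val e e' h, key⟩, rfl, fun i => ⟨rfl, rfl⟩⟩
  rw [Fin.sum_univ_eq_sum_range (fun i => wt L δ i) L]
  exact wt_total h0 (by omega)

end Pool.Agent.DPF.H69
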